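import Pool.Agent.Helper93.ET.St

/-!
# Project ET, module RNK: ranks in towers
-/

set_option autoImplicit false

namespace Pool.Agent.Helper29.ET

open Pool.Agent.Helper93.ET

theorem flat_prod (R M N : Type) [CommRing R] [AddCommGroup M] [AddCommGroup N] [Module R M] [Module R N]
    [Module.Flat R M] [Module.Flat R N] : Module.Flat R (M × N) := by
  rw [Module.Flat.iff_rTensor_preserves_injective_linearMap]
  intro P Q _ _ _ _ f hf
  have h : (TensorProduct.prodRight R R Q M N).toLinearMap ∘ₗ f.rTensor (M × N) =
      (LinearMap.prodMap (f.rTensor M) (f.rTensor N)) ∘ₗ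
        (TensorProduct.prodRight R R P M N).toLinearMap := by
    apply TensorProduct.ext'
    intro x y
    simp
  have hM := Module.Flat.rTensor_preserves_injective_linearMap (M := M) f hf
  have hN := Module.Flat.rTensor_preserves_injective_linearMap (M := N) f hf
  have h1 : Function.Injective ((TensorProduct.prodRight R R Q M N).toLinearMap ∘ₗ f.rTensor (M × N)) := by
    rw [h]
    exact (hM.prodMap hN).comp (TensorProduct.prodRight R R P M N).injective
  exact Function.Injective.of_comp (f := (TensorProduct.prodRight R R Q M N)) h1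

theorem hRNK : StRNK := by
  intro A0 A B _ _ _ _ _ _ _ _ _ _ _ m M hM x
  obtain ⟨e⟩ := hM
  have hfl : Module.Flat A0 (A × B) := flat_prod A0 A B
  have e0 : (Fin m → A × B) ≃ₗ[A0] (Fin M → A) := e.restrictScalars A0
  have h := congrFun (Module.rankAtStalk_eq_of_equiv (R := A0) e0) x
  rw [Module.rankAtStalk_pi, Module.rankAtStalk_pi] at h
  simp only [finsum_eq_sum_of_fintype, Finset.sum_const, Finset.card_univ,
    Fintype.card_fin, Module.rankAtStalk_prod, Pi.add_apply, smul_eq_mul] at h
  exact h

end Pool.Agent.Helper29.ET
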